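import Pool.Agent.P.MP_270153_nt.Main

open Pool.Agent.P.MP_270153_nt

theorem Pool.Agent.Results.MP_270153_nt.Disproof.result :
    ∃ m : ℕ, Odd m ∧ ¬ ∃ d : ℤ, ∀ p r : ℕ, p.Prime → 5 ≤ p → 1 ≤ r →
      (Cong (S m ((p ^ r + 1) / 2)) ((d : ℚ) * (p : ℚ) ^ r) p (r + 3) ∨
        Cong (S m (p ^ r - 1)) ((d : ℚ) * (p : ℚ) ^ r) p (r + 3)) :=
  Pool.Agent.P.MP_270153_nt.main
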