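import Pool.Agent.P.MP_270153_nt.PosC

open Pool.Agent.P.MP_270153_nt

theorem Pool.Agent.Results.MP_270153_nt.TrueRange.result (m : ℕ) (hm : Odd m) :
    ∃ d : ℤ, ∀ p r : ℕ, p.Prime → 5 ≤ p → 1 ≤ r → (2 ≤ r ∨ m < 2 * p + 5) →
      Cong (S m ((p ^ r + 1) / 2)) ((d : ℚ) * (p : ℚ) ^ r) p (r + 3) ∧
        Cong (S m (p ^ r - 1)) ((d : ℚ) * (p : ℚ) ^ r) p (r + 3) :=
  Pos.main m hm
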